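import Mathlib
import Pool.Agent.Run7.h475.ClanMain
import Pool.Agent.Run7.h475.Over

set_option autoImplicit false

namespace Pool.Agent.Results.MP_cf639b_al.Clannish

open Run7.h475

universe u

/-- Let `k` be a field with an element different from `0` and `1` (for instance any algebraically
closed field, of any characteristic) and let `A = kQ / (Z, s² - s, a b)` be a clannish algebra over
`k` with infinitely many bands. Then the Krull–Gabriel dimension of every ring `R` lying over `A`
is undefined; in particular (`R = A`) that of `A` itself. -/
theorem result (k : Type u) [Field k] (hk : ∃ c : k, c ≠ 0 ∧ c ≠ 1) (C : ClanData)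
    (hC : C.IsClannish) (hB : {w | C.IsBand w}.Infinite)
    (R : Type u) [Ring R] (hR : LiesOver R (C.Alg k)) : KGUndefined R :=
  (HasTree.of_liesOver hR (ClanData.hasTree_of_bands hC hk hB)).kg

end Pool.Agent.Results.MP_cf639b_al.Clannish
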