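import Mathlib
import Pool.Agent.Run7.h475.MonoTree
import Pool.Agent.Run7.h475.Over

set_option autoImplicit false

namespace Pool.Agent.Results.MP_cf639b_al.Monomial

open Run7.h475

universe u

/-- Let `A = kQ / (Z, s² - s, a b)` be the algebra of an arbitrary finite quiver with special loops
and finitely many zero relations (no further conditions: without special loops `A` is an arbitrary
finitely presented monomial algebra), over a field `k` which has characteristic different from `2`
if there are special loops. If there are infinitely many bands, then the Krull–Gabriel dimension of
every ring `R` lying over `A` is undefined; in particular (`R = A`) that of `A` itself. -/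
theorem result (k : Type u) [Field k] (C : ClanData) (hk : (2 : k) ≠ 0 ∨ ∀ v, ¬ C.special v)
    (hZ : C.Z.Finite) (hB : {w | C.IsBand w}.Infinite)
    (R : Type u) [Ring R] (hR : LiesOver R (C.Alg k)) : KGUndefined R :=
  (HasTree.of_liesOver hR (ClanData.hasTree_mono_of_bands hk hZ hB)).kg

end Pool.Agent.Results.MP_cf639b_al.Monomial
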